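import Pool.Agent.R492.DV.Kueker
import Pool.Agent.R492.DW.W3

set_option autoImplicit false

/-! Stable fields and valuations with a least positive value. -/

namespace Pool.Agent.R492.DS

open FirstOrder FirstOrder.Language FirstOrder.Ring
open Pool.Agent.W882.Nip3 Pool.Agent.R492.DV Pool.Agent.R492.DW

/-- `K` is stable: no formula of the language of rings has the order property in `K` (the
hypothesis of `S15095`). -/
def StableField (K : Type) [Field K] [FirstOrder.Ring.CompatibleRing K] : Prop :=
  ∀ (m k : ℕ) (φ : FirstOrder.Language.ring.Formula (Fin m ⊕ Fin k)),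
    ¬ ∀ n : ℕ, ∃ (a : Fin n → Fin m → K) (b : Fin n → Fin k → K),
      ∀ i j : Fin n, (φ.Realize (Sum.elim (a i) (b j)) ↔ i < j)

theorem nip_of_stable {K : Type} [Field K] [CompatibleRing K] (hK : StableField K) :
    NIPField K := by
  classical
  intro m k φ
  by_contra hcon
  push Not at hcon
  refine hK m k φ fun n => ?_
  obtain ⟨a, b, hab⟩ := hcon n
  refine ⟨a, fun j => b (Finset.univ.filter fun i => i < j), fun i j => ?_⟩
  rw [hab i _, Finset.mem_filter]
  exact ⟨fun h => h.2, fun h => ⟨Finset.mem_univ _, h⟩⟩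

/-- The valuation ring of a nontrivial valuation with a least positive value is not definable in a
stable field. -/
theorem not_definable {K : Type} [Field K] [CompatibleRing K] (hK : StableField K)
    (O : ValuationSubring K) {ϖ : K} (hϖ : ϖ ≠ 0) (hO : ϖ ∈ O) (hn : ϖ⁻¹ ∉ O)
    (h : ∃ (p : ℕ) (ψ : FirstOrder.Language.ring.Formula (Fin 1 ⊕ Fin p)) (c : Fin p → K),
        ∀ x : K, x ∈ O ↔ ψ.Realize (Sum.elim (fun _ => x) c)) : False := by
  obtain ⟨p, ψ, c, hψ⟩ := h
  let f : Fin 1 ⊕ Fin p → FirstOrder.Language.ring.Term (Fin 1 ⊕ Fin (1 + p)) :=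
    Sum.elim (fun _ => Term.var (Sum.inl 0) * Term.var (Sum.inr (Fin.castAdd p 0)))
      (fun j => Term.var (Sum.inr (Fin.natAdd 1 j)))
  let θ : FirstOrder.Language.ring.Formula (Fin 1 ⊕ Fin (1 + p)) :=
    BoundedFormula.not (BoundedFormula.subst ψ f)
  refine hK 1 (1 + p) θ fun n => ?_
  refine ⟨fun i _ => ϖ ^ (i : ℕ), fun j => Fin.append (fun _ => (ϖ⁻¹) ^ (j : ℕ)) c,
    fun i j => ?_⟩
  have h1 : Formula.Realize θ
      (Sum.elim (fun _ => ϖ ^ (i : ℕ)) (Fin.append (fun _ => (ϖ⁻¹) ^ (j : ℕ)) c)) ↔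
      ¬ (ϖ ^ (i : ℕ) * (ϖ⁻¹) ^ (j : ℕ) ∈ O) := by
    rw [hψ]
    unfold Formula.Realize
    simp only [θ]
    rw [BoundedFormula.realize_not, BoundedFormula.realize_subst]
    have h2 : (fun a => (f a).realize (Sum.elim (fun _ => ϖ ^ (i : ℕ))
        (Fin.append (fun _ => (ϖ⁻¹) ^ (j : ℕ)) c) : Fin 1 ⊕ Fin (1 + p) → K)) =
        Sum.elim (fun _ => ϖ ^ (i : ℕ) * (ϖ⁻¹) ^ (j : ℕ)) c := by
      funext a
      rcases a with a | a
      · simp only [f, Sum.elim_inl, realize_mul, Term.realize_var, Sum.elim_inr,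
          Fin.append_left]
      · simp only [f, Sum.elim_inr, Term.realize_var, Fin.append_right]
    rw [h2]
  rw [h1]
  have hpow : ∀ k : ℕ, ϖ ^ k ∈ O := fun k => O.toSubring.pow_mem hO k
  have hpow' : ∀ k : ℕ, (ϖ⁻¹) ^ (k + 1) ∉ O := by
    intro k hk
    apply hn
    have h3 := O.mul_mem _ _ (hpow k) hk
    have h4 : ϖ ^ k * ϖ⁻¹ ^ (k + 1) = ϖ⁻¹ := by
      rw [pow_succ, ← mul_assoc, ← mul_pow, mul_inv_cancel₀ hϖ, one_pow, one_mul]
    rwa [h4] at h3
  constructor
  · intro h3
    by_contra h4
    rw [Fin.lt_def, not_lt] at h4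
    apply h3
    obtain ⟨k, hk⟩ := Nat.exists_eq_add_of_le h4
    rw [hk, pow_add, mul_comm (ϖ ^ (j : ℕ)), mul_assoc, ← mul_pow, mul_inv_cancel₀ hϖ, one_pow,
      mul_one]
    exact hpow k
  · intro h3 h4
    rw [Fin.lt_def] at h3
    obtain ⟨k, hk⟩ := Nat.exists_eq_add_of_lt h3
    apply hpow' k
    have h5 : ϖ ^ (i : ℕ) * ϖ⁻¹ ^ (j : ℕ) = ϖ⁻¹ ^ (k + 1) := by
      rw [hk, add_assoc, pow_add, ← mul_assoc, ← mul_pow, mul_inv_cancel₀ hϖ, one_pow, one_mul]
    rwa [h5] at h4

theorem stable_main {K : Type} [Field K] [CompatibleRing K] (hK : StableField K)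
    (O : ValuationSubring K) (hO : O ≠ ⊤) (hp : (IsLocalRing.maximalIdeal O).IsPrincipal) :
    IsSepClosed (IsLocalRing.ResidueField O) := by
  by_contra hs
  have hdef := (main3 kueker K (Or.inl (nip_of_stable hK))).1 O hp hs
  obtain ⟨ϖ, hϖ⟩ := hp
  change IsLocalRing.maximalIdeal O = Ideal.span {ϖ} at hϖ
  have hϖ0 : (ϖ : K) ≠ 0 := by
    intro h0
    have h1 : ϖ = 0 := Subtype.ext h0
    rw [h1] at hϖ
    apply hO
    rw [eq_top_iff]
    intro x _
    exact eq_top_of hϖ x
  refine not_definable hK O hϖ0 ϖ.2 (fun hinv => ?_) hdef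
  have h1 : ϖ ∈ IsLocalRing.maximalIdeal O := by
    rw [hϖ]
    exact Ideal.mem_span_singleton_self ϖ
  exact (IsLocalRing.mem_maximalIdeal ϖ).1 h1
    (IsUnit.of_mul_eq_one ⟨_, hinv⟩ (Subtype.ext (mul_inv_cancel₀ hϖ0)))

theorem not_isSepClosed_finite (k : Type) [Field k] [Finite k] : ¬ IsSepClosed k := by
  intro h
  have := Fintype.ofFinite k
  have hq : 1 < Fintype.card k := Fintype.one_lt_card
  have hq0 : ((Fintype.card k : ℕ) : k) = 0 := by
    exact Nat.cast_card_eq_zero k
  have hdeg : (Polynomial.X ^ Fintype.card k - Polynomial.X + 1 : Polynomial k).natDegree =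
      Fintype.card k := by
    rw [show (Polynomial.X ^ Fintype.card k - Polynomial.X + 1 : Polynomial k) =
      Polynomial.X ^ Fintype.card k - (Polynomial.X - Polynomial.C 1) by
        rw [Polynomial.C_1]; ring]
    rw [Polynomial.natDegree_sub_eq_left_of_natDegree_lt]
    · exact Polynomial.natDegree_X_pow _
    · rw [Polynomial.natDegree_X_sub_C, Polynomial.natDegree_X_pow]
      exact hq
  obtain ⟨x, hx⟩ := IsSepClosed.exists_root
    (Polynomial.X ^ Fintype.card k - Polynomial.X + 1 : Polynomial k) (by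
      intro h0
      have := Polynomial.natDegree_eq_of_degree_eq_some (n := 0) (by exact_mod_cast h0)
      omega) (by
      rw [Polynomial.separable_def]
      have hd : Polynomial.derivative
          (Polynomial.X ^ Fintype.card k - Polynomial.X + 1 : Polynomial k) = -1 := by
        rw [Polynomial.derivative_add, Polynomial.derivative_sub, Polynomial.derivative_X_pow,
          hq0, Polynomial.derivative_X, Polynomial.derivative_one]
        simp
      rw [hd]
      exact isCoprime_one_right.neg_right)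
  rw [Polynomial.IsRoot.def, Polynomial.eval_add, Polynomial.eval_sub, Polynomial.eval_pow,
    Polynomial.eval_X, FiniteField.pow_card, sub_self, zero_add, Polynomial.eval_one] at hx
  exact one_ne_zero hx

theorem finite_of_dvr {K : Type} [Field K] [CompatibleRing K] (hK : StableField K)
    (F : Type) [Field F] (A : ValuationSubring F) [IsDiscreteValuationRing A]
    [Finite (IsLocalRing.ResidueField A)] (f : K →+* F) : Finite K := by
  classical
  set O : ValuationSubring K := A.comap f with hO
  have hmem : ∀ x : K, x ∈ O ↔ f x ∈ A := fun x => Iff.rfl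
  let g : O →+* A :=
    { toFun := fun x => ⟨f x, x.2⟩
      map_one' := Subtype.ext (map_one f)
      map_mul' := fun x y => Subtype.ext (map_mul f _ _)
      map_zero' := Subtype.ext (map_zero f)
      map_add' := fun x y => Subtype.ext (map_add f _ _) }
  have hg : ∀ x : O, ((g x : A) : F) = f x := fun _ => rfl
  have hloc : IsLocalHom g := by
    refine ⟨fun x hx => ?_⟩
    obtain ⟨w, hw⟩ := hx
    have hx0 : (x : K) ≠ 0 := by
      intro h0
      have h1 : g x = 0 := Subtype.ext (by rw [hg, h0, map_zero]; rfl)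
      rw [← hw] at h1
      exact w.ne_zero h1
    have h2 : (x : K)⁻¹ ∈ O := by
      rw [hmem, map_inv₀]
      have h3 : f x * (((w⁻¹ : Aˣ) : A) : F) = 1 := by
        rw [← hg, ← hw, ← MulMemClass.coe_mul, Units.mul_inv]
        rfl
      rw [← eq_inv_of_mul_eq_one_right h3]
      exact ((w⁻¹ : Aˣ) : A).2
    exact IsUnit.of_mul_eq_one ⟨_, h2⟩ (Subtype.ext (mul_inv_cancel₀ hx0))
  let ρ : IsLocalRing.ResidueField O →+* IsLocalRing.ResidueField A :=
    IsLocalRing.ResidueField.map g
  have hfin : Finite (IsLocalRing.ResidueField O) := Finite.of_injective ρ ρ.injective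
  by_cases htop : O = ⊤
  · let h : K →+* IsLocalRing.ResidueField A :=
      (IsLocalRing.residue A).comp
        { toFun := fun x => ⟨f x, (hmem x).1 (by rw [htop]; trivial)⟩
          map_one' := Subtype.ext (map_one f)
          map_mul' := fun x y => Subtype.ext (map_mul f _ _)
          map_zero' := Subtype.ext (map_zero f)
          map_add' := fun x y => Subtype.ext (map_add f _ _) }
    exact Finite.of_injective h h.injective
  · exfalso
    refine not_isSepClosed_finite _ (stable_main hK O htop ?_)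
    -- an element of the maximal ideal with minimal value
    have hex : ∃ x : O, x ≠ 0 ∧ ¬ IsUnit x := by
      by_contra hcon
      push Not at hcon
      apply htop
      rw [eq_top_iff]
      intro x _
      rcases O.mem_or_inv_mem x with h | h
      · exact h
      · by_cases hx : x = 0
        · rw [hx]
          exact O.zero_mem
        · obtain ⟨w, hw⟩ := hcon ⟨x⁻¹, h⟩ fun h0 => inv_ne_zero hx (congrArg Subtype.val h0)
          have h3 : x⁻¹ * (((w⁻¹ : Oˣ) : O) : K) = 1 := by
            have : ((w : O) : K) * (((w⁻¹ : Oˣ) : O) : K) = 1 := by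
              rw [← MulMemClass.coe_mul, Units.mul_inv]
              rfl
            rwa [hw] at this
          have h4 := eq_inv_of_mul_eq_one_right h3
          rw [inv_inv] at h4
          rw [← h4]
          exact ((w⁻¹ : Oˣ) : O).2
    obtain ⟨x, ⟨hx0, hxu⟩, hmin⟩ := WellFounded.has_min
      (InvImage.wf (fun x : O => IsDiscreteValuationRing.addVal A (g x)) wellFounded_lt)
      {x : O | x ≠ 0 ∧ ¬ IsUnit x} hex
    refine ⟨x, ?_⟩
    change IsLocalRing.maximalIdeal O = Ideal.span {x}
    apply le_antisymm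
    · intro y hy
      rw [Ideal.mem_span_singleton]
      by_cases hy0 : y = 0
      · rw [hy0]
        exact dvd_zero x
      · have h1 : ¬ (IsDiscreteValuationRing.addVal A (g y) <
            IsDiscreteValuationRing.addVal A (g x)) := hmin y ⟨hy0, hy⟩
        rw [not_lt, IsDiscreteValuationRing.addVal_le_iff_dvd] at h1
        obtain ⟨z, hz⟩ := h1
        have hx0' : (x : K) ≠ 0 := fun h => hx0 (Subtype.ext h)
        have h2 : (y : K) / x ∈ O := by
          rw [hmem, map_div₀]
          have h3 : f y = f x * (z : F) := by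
            have := congrArg Subtype.val hz
            exact this
          rw [h3, mul_div_cancel_left₀ _ ((map_ne_zero f).2 hx0')]
          exact z.2
        exact ⟨⟨_, h2⟩, Subtype.ext (mul_div_cancel₀ _ hx0').symm⟩
    · rw [Ideal.span_singleton_le_iff_mem]
      exact hxu

end Pool.Agent.R492.DS
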